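import Mathlib
import Pool.Agent.N44.NS.Defs

/-!
# Project NS (a non-sofic group), step DATA, abstract part
-/

set_option autoImplicit false

namespace Pool.Agent.N46.NS

open Pool.Agent.N44.NS

section ring

variable {B : Type} [Ring B]

lemma th_aux1 {X Y : B} (h : Y * X = 1) : Y * (1 - X * Y) = 0 := by
  rw [mul_sub, ← mul_assoc, h, one_mul, mul_one, sub_self]

lemma th_aux2 {X Y : B} (h : Y * X = 1) : (1 - X * Y) * X = 0 := by
  rw [sub_mul, mul_assoc, h, one_mul, mul_one, sub_self]

/-- the map `g ↦ X g Y + (1 - X Y)` -/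
def th (X Y : B) (h : Y * X = 1) : B →* B where
  toFun g := X * g * Y + (1 - X * Y)
  map_one' := by rw [mul_one]; abel
  map_mul' g g' := by
    have e1 := th_aux1 h
    have e2 := th_aux2 h
    have e3 : X * g * Y * (X * g' * Y) = X * (g * g') * Y := by
      calc X * g * Y * (X * g' * Y) = X * g * (Y * X) * g' * Y := by simp only [mul_assoc]
        _ = X * (g * g') * Y := by rw [h, mul_one]; simp only [mul_assoc]
    have e4 : X * g * Y * (1 - X * Y) = 0 := by rw [mul_assoc, e1, mul_zero]
    have e5 : (1 - X * Y) * (X * g' * Y) = 0 := by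
      rw [mul_assoc X g' Y, ← mul_assoc, e2, zero_mul]
    have e6 : (1 - X * Y) * (1 - X * Y) = 1 - X * Y := by
      rw [mul_sub, mul_one, ← mul_assoc, e2, zero_mul, sub_zero]
    rw [add_mul, mul_add, mul_add, e3, e4, e5, e6]
    abel

lemma th_apply (X Y : B) (h : Y * X = 1) (g : B) : th X Y h g = X * g * Y + (1 - X * Y) := rfl

lemma th_conj_comp {X Y S T H Hi X' Y' : B} (h1 : Y * X = 1) (h2 : T * S = 1) (h3 : H * Hi = 1)
    (hx : H * X * S = X') (hy : T * (Y * Hi) = Y') (h4 : Y' * X' = 1) (g : B) :
    H * th X Y h1 (th S T h2 g) * Hi = th X' Y' h4 g := by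
  rw [th_apply, th_apply, th_apply]
  have e1 : H * (X * (S * g * T + (1 - S * T)) * Y + (1 - X * Y)) * Hi =
      (H * X * S) * g * (T * (Y * Hi)) + (H * Hi - (H * X * S) * (T * (Y * Hi))) := by
    noncomm_ring
  rw [e1, hx, hy, h3]

lemma th_comm {X Y X' Y' : B} (h1 : Y * X = 1) (h2 : Y' * X' = 1) (h3 : Y * X' = 0)
    (h4 : Y' * X = 0) (g g' : B) : th X Y h1 g * th X' Y' h2 g' = th X' Y' h2 g' * th X Y h1 g := by
  have key : ∀ (X Y X' Y' g g' : B), Y * X' = 0 →
      (X * g * Y + (1 - X * Y)) * (X' * g' * Y' + (1 - X' * Y')) =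
        X * g * Y + X' * g' * Y' + 1 - X * Y - X' * Y' := by
    intro X Y X' Y' g g' h
    have e1 : (X * g * Y + (1 - X * Y)) * (X' * g' * Y' + (1 - X' * Y')) =
        X * g * (Y * X') * g' * Y' - X * g * (Y * X') * Y' - X * (Y * X') * g' * Y' + X * (Y * X') * Y' +
        (X * g * Y + X' * g' * Y' + 1 - X * Y - X' * Y') := by
      noncomm_ring
    rw [e1, h]
    simp
  rw [th_apply, th_apply, key _ _ _ _ _ _ h3, key _ _ _ _ _ _ h4]
  abel

lemma th_inj {X Y : B} (h : Y * X = 1) : Function.Injective (th X Y h) := by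
  intro g g' hg
  rw [th_apply, th_apply] at hg
  have key : ∀ g : B, Y * (X * g * Y + (1 - X * Y)) * X = g := by
    intro g
    have e1 : Y * (X * g * Y + (1 - X * Y)) * X = (Y * X) * g * (Y * X) + Y * ((1 - X * Y) * X) := by
      noncomm_ring
    rw [e1, th_aux2 h, h, one_mul, mul_one, mul_zero, add_zero]
  rw [← key g, hg, key]

end ring

section mat

variable {A : Type} [Ring A]

/-- the homomorphism of the unit group of the matrix ring -/
def Th (p q : Fin 3 → A) (h : ∀ i, q i * p i = 1) :
    (Matrix (Fin 3) (Fin 3) A)ˣ →* (Matrix (Fin 3) (Fin 3) A)ˣ :=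
  Units.map (th (Matrix.diagonal p) (Matrix.diagonal q) (by
    rw [Matrix.diagonal_mul_diagonal]
    simp [h]))

lemma diag_single (p q : Fin 3 → A) (i j : Fin 3) (a : A) :
    Matrix.diagonal p * Matrix.single i j a * Matrix.diagonal q = Matrix.single i j (p i * a * q j) := by
  ext k l
  rw [Matrix.mul_diagonal, Matrix.diagonal_mul, Matrix.single_apply, Matrix.single_apply]
  split_ifs with h
  · rw [h.1, h.2]
  · simp

lemma Th_el (p q : Fin 3 → A) (h : ∀ i, q i * p i = 1) (i j : Fin 3) (hij : i ≠ j) (a : A) :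
    Th p q h (el i j hij a) = el i j hij (p i * a * q j) := by
  apply Units.ext
  change Matrix.diagonal p * (1 + Matrix.single i j a) * Matrix.diagonal q +
    (1 - Matrix.diagonal p * Matrix.diagonal q) = 1 + Matrix.single i j (p i * a * q j)
  rw [← diag_single]
  noncomm_ring

lemma el_mem (i j : Fin 3) (hij : i ≠ j) (a : A) : el i j hij a ∈ E3 A :=
  Subgroup.subset_closure ⟨i, j, hij, a, rfl⟩

lemma Th_mem (p q : Fin 3 → A) (h : ∀ i, q i * p i = 1) {g : (Matrix (Fin 3) (Fin 3) A)ˣ}
    (hg : g ∈ E3 A) : Th p q h g ∈ E3 A := by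
  have h1 : E3 A ≤ (E3 A).comap (Th p q h) := by
    refine (Subgroup.closure_le _).2 ?_
    rintro _ ⟨i, j, hij, a, rfl⟩
    change Th p q h (el i j hij a) ∈ E3 A
    rw [Th_el]
    exact el_mem _ _ _ _
  exact h1 hg

/-- the homomorphism of `E3 A` -/
def ThE (p q : Fin 3 → A) (h : ∀ i, q i * p i = 1) : E3 A →* E3 A :=
  ((Th p q h).comp (E3 A).subtype).codRestrict (E3 A) (fun x => Th_mem p q h x.2)

lemma ThE_coe (p q : Fin 3 → A) (h : ∀ i, q i * p i = 1) (x : E3 A) :
    ((ThE p q h x : E3 A) : (Matrix (Fin 3) (Fin 3) A)ˣ) = Th p q h x.1 := rfl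

/-- elementary matrices as elements of `E3 A` -/
def eE (i j : Fin 3) (hij : i ≠ j) (a : A) : E3 A := ⟨el i j hij a, el_mem i j hij a⟩

lemma ThE_eE (p q : Fin 3 → A) (h : ∀ i, q i * p i = 1) (i j : Fin 3) (hij : i ≠ j) (a : A) :
    ThE p q h (eE i j hij a) = eE i j hij (p i * a * q j) :=
  Subtype.ext (Th_el p q h i j hij a)

lemma eE_add (i j : Fin 3) (hij : i ≠ j) (a b : A) : eE i j hij (a + b) = eE i j hij a * eE i j hij b := by
  apply Subtype.ext
  apply Units.ext
  change 1 + Matrix.single i j (a + b) = (1 + Matrix.single i j a) * (1 + Matrix.single i j b)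
  rw [Matrix.single_add]
  have e1 := single_sq hij a b
  generalize Matrix.single i j a = E at *
  generalize Matrix.single i j b = F at *
  have e2 : (1 + E) * (1 + F) = 1 + E + F + E * F := by noncomm_ring
  rw [e2, e1]
  abel

lemma eE_comm (i m j : Fin 3) (him : i ≠ m) (hmj : m ≠ j) (hij : i ≠ j) (a b : A) :
    eE i j hij (a * b) = eE i m him a * eE m j hmj b * (eE i m him a)⁻¹ * (eE m j hmj b)⁻¹ := by
  rw [eq_mul_inv_iff_mul_eq, eq_mul_inv_iff_mul_eq]
  apply Subtype.ext
  apply Units.ext
  change (1 + Matrix.single i j (a * b)) * (1 + Matrix.single m j b) * (1 + Matrix.single i m a) =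
    (1 + Matrix.single i m a) * (1 + Matrix.single m j b)
  have e1 : Matrix.single i j (a * b) = Matrix.single i m a * Matrix.single m j b := by
    rw [Matrix.single_mul_single_same]
  have e2 : Matrix.single m j b * Matrix.single i m a = 0 := by
    rw [Matrix.single_mul_single_of_ne _ _ _ _ hij.symm]
  have e3 : Matrix.single m j b * Matrix.single m j b = 0 := single_sq hmj b b
  rw [e1]
  generalize Matrix.single i m a = E at *
  generalize Matrix.single m j b = F at *
  have e4 : (1 + E * F) * (1 + F) * (1 + E) = 1 + E + F + E * F + F * E + E * (F * F) +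
      E * (F * E) + E * (F * (F * E)) := by noncomm_ring
  rw [e4, e2, e3]
  noncomm_ring

lemma top_of (M : Subgroup (E3 A)) (h : ∀ (i j : Fin 3) (hij : i ≠ j) (a : A), eE i j hij a ∈ M) :
    M = ⊤ := by
  rw [eq_top_iff]
  intro x _
  have h1 : E3 A ≤ M.map (E3 A).subtype := by
    refine (Subgroup.closure_le _).2 ?_
    rintro _ ⟨i, j, hij, a, rfl⟩
    exact ⟨eE i j hij a, h i j hij a, rfl⟩
  obtain ⟨y, hy, hyx⟩ := h1 x.2
  have : y = x := Subtype.ext hyx
  rwa [← this]

lemma third (i j : Fin 3) : ∃ m : Fin 3, i ≠ m ∧ m ≠ j := by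
  revert i j
  decide

lemma perf : commutator (E3 A) = ⊤ := by
  apply top_of
  intro i j hij a
  obtain ⟨m, him, hmj⟩ := third i j
  have h1 := eE_comm i m j him hmj hij a 1
  rw [mul_one] at h1
  rw [h1]
  exact Subgroup.commutator_mem_commutator (Subgroup.mem_top _) (Subgroup.mem_top _)

lemma nontriv [Nontrivial A] : ∃ g : E3 A, g ≠ 1 := by
  refine ⟨eE 0 1 (by decide) 1, fun h => ?_⟩
  have h1 := congrArg (fun x : E3 A => (x.1.val : Matrix (Fin 3) (Fin 3) A) 0 1) h
  change (1 + Matrix.single 0 1 1 : Matrix (Fin 3) (Fin 3) A) 0 1 = (1 : Matrix (Fin 3) (Fin 3) A) 0 1 at h1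
  simp at h1

/-- the data from elements of the ring -/
theorem dat_of [Nontrivial A] (p q p' q' s t s' t' v w : Fin 3 → A)
    (hqp : ∀ i, q i * p i = 1) (hqp' : ∀ i, q' i * p' i = 1)
    (h0 : ∀ i, q i * p' i = 0) (h0' : ∀ i, q' i * p i = 0)
    (hts : ∀ i, t i * s i = 1) (hts' : ∀ i, t' i * s' i = 1)
    (hvw : ∀ i, v i * w i = 1) (hwv : ∀ i, w i * v i = 1)
    (h1 : ∀ i, v i * p i * s i = p i) (h2 : ∀ i, t i * (q i * w i) = q i)
    (h3 : ∀ i, v i * p i * s' i = p' i) (h4 : ∀ i, t' i * (q i * w i) = q' i)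
    (H : (Matrix (Fin 3) (Fin 3) A)ˣ) (HE : H ∈ E3 A) (Hv : H.val = Matrix.diagonal v) :
    Dat (E3 A) (ThE p q hqp) (ThE p' q' hqp') ⟨H, HE⟩ := by
  have hvw' : (Matrix.diagonal v : Matrix (Fin 3) (Fin 3) A) * Matrix.diagonal w = 1 := by
    rw [Matrix.diagonal_mul_diagonal]
    simp [hvw]
  have Hw : (H⁻¹).val = Matrix.diagonal w := by
    have e1 : (H⁻¹).val * H.val = 1 := H.inv_mul
    rw [Hv] at e1
    calc (H⁻¹).val = (H⁻¹).val * (Matrix.diagonal v * Matrix.diagonal w) := by rw [hvw', mul_one]
      _ = Matrix.diagonal w := by rw [← mul_assoc, e1, one_mul]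
  have conj : ∀ (σ τ P Q : Fin 3 → A) (hτσ : ∀ i, τ i * σ i = 1) (hQP : ∀ i, Q i * P i = 1),
      (∀ i, v i * p i * σ i = P i) → (∀ i, τ i * (q i * w i) = Q i) → ∀ a : E3 A,
      ThE P Q hQP a = ⟨H, HE⟩ * ThE p q hqp (ThE σ τ hτσ a) * (⟨H, HE⟩ : E3 A)⁻¹ := by
    intro σ τ P Q hτσ hQP e1 e2 a
    apply Subtype.ext
    apply Units.ext
    change (th (Matrix.diagonal P) (Matrix.diagonal Q) _ (a.1.val : Matrix (Fin 3) (Fin 3) A)) =
      H.val * th (Matrix.diagonal p) (Matrix.diagonal q) _ (th (Matrix.diagonal σ) (Matrix.diagonal τ) _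
        (a.1.val : Matrix (Fin 3) (Fin 3) A)) * (H⁻¹).val
    rw [Hv, Hw]
    symm
    apply th_conj_comp
    · exact hvw'
    · rw [Matrix.diagonal_mul_diagonal, Matrix.diagonal_mul_diagonal]
      congr 1
      funext i
      exact e1 i
    · rw [Matrix.diagonal_mul_diagonal, Matrix.diagonal_mul_diagonal]
      congr 1
      funext i
      exact e2 i
  have mono : ∀ a : E3 A, ThE p q hqp a =
      ⟨H, HE⟩ * ThE p q hqp (ThE s t hts a) * (⟨H, HE⟩ : E3 A)⁻¹ :=
    conj s t p q hts hqp h1 h2
  refine ⟨?_, ?_, fun a => ⟨_, mono a⟩, fun a => ⟨_, conj s' t' p' q' hts' hqp' h3 h4 a⟩, ?_, perf,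
    nontriv⟩
  · -- injectivity
    intro a b hab
    apply Subtype.ext
    apply Units.ext
    have e1 := congrArg (fun x : E3 A => (x.1.val : Matrix (Fin 3) (Fin 3) A)) hab
    exact th_inj _ e1
  · -- commutation
    intro a b
    apply Subtype.ext
    apply Units.ext
    exact th_comm _ _ (by
      rw [Matrix.diagonal_mul_diagonal]
      simp [h0]) (by
      rw [Matrix.diagonal_mul_diagonal]
      simp [h0']) _ _
  · -- generation
    obtain ⟨M, hM⟩ : ∃ M : Subgroup (E3 A), M = Subgroup.closure {g : E3 A | ∀ a, ∃ b,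
      ThE p q hqp a = g * ThE p q hqp b * g⁻¹} := ⟨_, rfl⟩
    rw [← hM]
    have hsub : ∀ g : E3 A, (∀ a, ∃ b, ThE p q hqp a = g * ThE p q hqp b * g⁻¹) → g ∈ M := by
      intro g hg
      rw [hM]
      exact Subgroup.subset_closure hg
    have hH : (⟨H, HE⟩ : E3 A) ∈ M := hsub _ fun a => ⟨_, mono a⟩
    have hc : ∀ b0 : E3 A, ⟨H, HE⟩ * ThE p q hqp b0 * (⟨H, HE⟩ : E3 A)⁻¹ ∈ M := by
      intro b0
      have e1 : ⟨H, HE⟩ * ThE p q hqp b0 ∈ M := by
        apply hsub
        intro a
        refine ⟨b0⁻¹ * ThE s t hts a * b0, ?_⟩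
        rw [map_mul, map_mul, map_inv]
        have e2 := mono a
        generalize ThE p q hqp b0 = z at *
        generalize ThE p q hqp (ThE s t hts a) = y at *
        rw [e2]
        group
      exact M.mul_mem e1 (M.inv_mem hH)
    -- type (ii)
    have hii : ∀ (i j : Fin 3) (hij : i ≠ j) (b : A),
        eE i j hij (v i * p i * (q i * w i) * b * (v j * p j * (q j * w j))) ∈ M := by
      intro i j hij b
      have e1 := hc (eE i j hij (q i * w i * b * (v j * p j)))
      have e2 : ⟨H, HE⟩ * ThE p q hqp (eE i j hij (q i * w i * b * (v j * p j))) * (⟨H, HE⟩ : E3 A)⁻¹ =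
          eE i j hij (v i * p i * (q i * w i) * b * (v j * p j * (q j * w j))) := by
        rw [ThE_eE]
        apply Subtype.ext
        apply Units.ext
        change H.val * (1 + Matrix.single i j (p i * (q i * w i * b * (v j * p j)) * q j)) * (H⁻¹).val =
          1 + Matrix.single i j (v i * p i * (q i * w i) * b * (v j * p j * (q j * w j)))
        rw [Hv, Hw, mul_add, mul_one, add_mul, hvw', diag_single]
        simp only [mul_assoc]
      rwa [e2] at e1
    have hii' : ∀ (i j : Fin 3) (hij : i ≠ j) (b : A), v i * p i * (q i * w i) * b = b →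
        b * (v j * p j * (q j * w j)) = b → eE i j hij b ∈ M := by
      intro i j hij b e1 e2
      have e3 := hii i j hij b
      rwa [e1, e2] at e3
    -- type (iii)
    have hiii : ∀ (i j : Fin 3) (hij : i ≠ j) (b : A), q i * b = 0 → b * p j = 0 → eE i j hij b ∈ M := by
      intro i j hij b e1 e2
      apply hsub
      intro a
      refine ⟨a, ?_⟩
      rw [eq_mul_inv_iff_mul_eq]
      apply Subtype.ext
      apply Units.ext
      change (Matrix.diagonal p * (a.1.val : Matrix (Fin 3) (Fin 3) A) * Matrix.diagonal q +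
          (1 - Matrix.diagonal p * Matrix.diagonal q)) * (1 + Matrix.single i j b) =
        (1 + Matrix.single i j b) * (Matrix.diagonal p * (a.1.val : Matrix (Fin 3) (Fin 3) A) *
          Matrix.diagonal q + (1 - Matrix.diagonal p * Matrix.diagonal q))
      have e3 : Matrix.diagonal q * Matrix.single i j b = 0 := by
        ext k l
        rw [Matrix.diagonal_mul, Matrix.single_apply]
        split_ifs with h
        · rw [← h.1, e1]; rfl
        · simp
      have e4 : Matrix.single i j b * Matrix.diagonal p = 0 := by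
        ext k l
        rw [Matrix.mul_diagonal, Matrix.single_apply]
        split_ifs with h
        · rw [← h.2, e2]; rfl
        · simp
      generalize (Matrix.single i j b : Matrix (Fin 3) (Fin 3) A) = E at *
      generalize (a.1.val : Matrix (Fin 3) (Fin 3) A) = g at *
      generalize (Matrix.diagonal p : Matrix (Fin 3) (Fin 3) A) = X at *
      generalize (Matrix.diagonal q : Matrix (Fin 3) (Fin 3) A) = Y at *
      have e5 : (X * g * Y + (1 - X * Y)) * (1 + E) =
          X * g * Y + (1 - X * Y) + E + X * g * (Y * E) - X * (Y * E) := by noncomm_ring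
      have e6 : (1 + E) * (X * g * Y + (1 - X * Y)) =
          X * g * Y + (1 - X * Y) + E + (E * X) * g * Y - (E * X) * Y := by noncomm_ring
      rw [e5, e6, e3, e4]
      simp
    -- relations for the idempotents
    have r0 : ∀ i, q i * w i * (v i * p i) = 1 := by
      intro i
      calc q i * w i * (v i * p i) = q i * (w i * v i) * p i := by simp only [mul_assoc]
        _ = 1 := by rw [hwv, mul_one, hqp]
    have rP : ∀ i, v i * p i * (q i * w i) * p i = p i := by
      intro i
      calc v i * p i * (q i * w i) * p i = v i * p i * (q i * w i) * (v i * p i * s i) := by rw [h1]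
        _ = v i * p i * (q i * w i * (v i * p i)) * s i := by simp only [mul_assoc]
        _ = p i := by rw [r0, mul_one, h1]
    have rP' : ∀ i, v i * p i * (q i * w i) * p' i = p' i := by
      intro i
      calc v i * p i * (q i * w i) * p' i = v i * p i * (q i * w i) * (v i * p i * s' i) := by rw [h3]
        _ = v i * p i * (q i * w i * (v i * p i)) * s' i := by simp only [mul_assoc]
        _ = p' i := by rw [r0, mul_one, h3]
    have rQ : ∀ i, q i * (v i * p i * (q i * w i)) = q i := by
      intro i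
      calc q i * (v i * p i * (q i * w i)) = t i * (q i * w i) * (v i * p i * (q i * w i)) := by rw [h2]
        _ = t i * ((q i * w i * (v i * p i)) * (q i * w i)) := by simp only [mul_assoc]
        _ = q i := by rw [r0, one_mul, h2]
    have rQ' : ∀ i, q' i * (v i * p i * (q i * w i)) = q' i := by
      intro i
      calc q' i * (v i * p i * (q i * w i)) = t' i * (q i * w i) * (v i * p i * (q i * w i)) := by rw [h4]
        _ = t' i * ((q i * w i * (v i * p i)) * (q i * w i)) := by simp only [mul_assoc]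
        _ = q' i := by rw [r0, one_mul, h4]
    have rN : ∀ i, q i * (1 - p i * q i) = 0 := fun i => th_aux1 (hqp i)
    have rN' : ∀ i, (1 - p i * q i) * p i = 0 := fun i => th_aux2 (hqp i)
    apply top_of
    intro i j hij b
    obtain ⟨m, him, hmj⟩ := third i j
    have hcomm : ∀ a c : A, eE i m him a ∈ M → eE m j hmj c ∈ M → eE i j hij (a * c) ∈ M := by
      intro a c ha hc'
      rw [eE_comm i m j him hmj hij]
      exact M.mul_mem (M.mul_mem (M.mul_mem ha hc') (M.inv_mem ha)) (M.inv_mem hc')
    -- the four parts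
    have k1 : eE i j hij (p i * q i * b * (p j * q j)) ∈ M := by
      apply hii'
      · calc v i * p i * (q i * w i) * (p i * q i * b * (p j * q j)) =
            (v i * p i * (q i * w i) * p i) * (q i * b * (p j * q j)) := by simp only [mul_assoc]
          _ = p i * q i * b * (p j * q j) := by rw [rP]; simp only [mul_assoc]
      · calc p i * q i * b * (p j * q j) * (v j * p j * (q j * w j)) =
            p i * q i * b * p j * (q j * (v j * p j * (q j * w j))) := by simp only [mul_assoc]
          _ = p i * q i * b * (p j * q j) := by rw [rQ]; simp only [mul_assoc]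
    have k2 : eE i j hij (p i * q i * b * (1 - p j * q j)) ∈ M := by
      have e1 : p i * q i * b * (1 - p j * q j) =
          (p i * q i * q' m) * (p' m * b * (1 - p j * q j)) := by
        calc p i * q i * b * (1 - p j * q j) = p i * q i * 1 * b * (1 - p j * q j) := by rw [mul_one]
          _ = p i * q i * (q' m * p' m) * b * (1 - p j * q j) := by rw [hqp']
          _ = _ := by simp only [mul_assoc]
      rw [e1]
      apply hcomm
      · apply hii'
        · calc v i * p i * (q i * w i) * (p i * q i * q' m) =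
              (v i * p i * (q i * w i) * p i) * (q i * q' m) := by simp only [mul_assoc]
            _ = p i * q i * q' m := by rw [rP]; simp only [mul_assoc]
        · rw [mul_assoc (p i * q i), rQ']
      · apply hiii
        · rw [mul_assoc (p' m), ← mul_assoc (q m), h0, zero_mul]
        · rw [mul_assoc, rN', mul_zero]
    have k3 : eE i j hij ((1 - p i * q i) * b * (p j * q j)) ∈ M := by
      have e1 : (1 - p i * q i) * b * (p j * q j) =
          ((1 - p i * q i) * q' m) * (p' m * b * (p j * q j)) := by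
        calc (1 - p i * q i) * b * (p j * q j) = (1 - p i * q i) * 1 * b * (p j * q j) := by rw [mul_one]
          _ = (1 - p i * q i) * (q' m * p' m) * b * (p j * q j) := by rw [hqp']
          _ = _ := by simp only [mul_assoc]
      rw [e1]
      apply hcomm
      · apply hiii
        · rw [← mul_assoc, rN, zero_mul]
        · rw [mul_assoc, h0', mul_zero]
      · apply hii'
        · calc v m * p m * (q m * w m) * (p' m * b * (p j * q j)) =
              (v m * p m * (q m * w m) * p' m) * (b * (p j * q j)) := by simp only [mul_assoc]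
            _ = p' m * b * (p j * q j) := by rw [rP']; simp only [mul_assoc]
        · calc p' m * b * (p j * q j) * (v j * p j * (q j * w j)) =
              p' m * b * p j * (q j * (v j * p j * (q j * w j))) := by simp only [mul_assoc]
            _ = p' m * b * (p j * q j) := by rw [rQ]; simp only [mul_assoc]
    have k4 : eE i j hij ((1 - p i * q i) * b * (1 - p j * q j)) ∈ M := by
      apply hiii
      · rw [← mul_assoc, ← mul_assoc, rN, zero_mul, zero_mul]
      · rw [mul_assoc, rN', mul_zero]
    have e1 : b = p i * q i * b * (p j * q j) + p i * q i * b * (1 - p j * q j) +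
        ((1 - p i * q i) * b * (p j * q j) + (1 - p i * q i) * b * (1 - p j * q j)) := by
      rw [← mul_add, ← mul_add, add_sub_cancel, mul_one, mul_one, ← add_mul, add_sub_cancel, one_mul]
    rw [e1, eE_add, eE_add, eE_add]
    exact M.mul_mem (M.mul_mem k1 k2) (M.mul_mem k3 k4)

end mat

end Pool.Agent.N46.NS
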