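import Mathlib
import Pool.Agent.N44.NS.Defs
import Pool.Agent.N46.NS.Th

/-!
# Project NS (a non-sofic group), step DATA, concrete part
-/

set_option autoImplicit false
set_option linter.unusedSimpArgs false

namespace Pool.Agent.N46.NS

open Pool.Agent.N44.NS

section white

variable {A : Type} [Ring A]

lemma el01 (h : (0 : Fin 3) ≠ 1) (a : A) : (el 0 1 h a).val = !![1, a, 0; 0, 1, 0; 0, 0, 1] := by
  change 1 + Matrix.single 0 1 a = _
  ext i j
  fin_cases i <;> fin_cases j <;> simp [Matrix.single_apply, Matrix.one_apply]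

lemma el10 (h : (1 : Fin 3) ≠ 0) (a : A) : (el 1 0 h a).val = !![1, 0, 0; a, 1, 0; 0, 0, 1] := by
  change 1 + Matrix.single 1 0 a = _
  ext i j
  fin_cases i <;> fin_cases j <;> simp [Matrix.single_apply, Matrix.one_apply]

lemma el12 (h : (1 : Fin 3) ≠ 2) (a : A) : (el 1 2 h a).val = !![1, 0, 0; 0, 1, a; 0, 0, 1] := by
  change 1 + Matrix.single 1 2 a = _
  ext i j
  fin_cases i <;> fin_cases j <;> simp [Matrix.single_apply, Matrix.one_apply]

lemma el21 (h : (2 : Fin 3) ≠ 1) (a : A) : (el 2 1 h a).val = !![1, 0, 0; 0, 1, 0; 0, a, 1] := by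
  change 1 + Matrix.single 2 1 a = _
  ext i j
  fin_cases i <;> fin_cases j <;> simp [Matrix.single_apply, Matrix.one_apply]

lemma w01 (v w : A) (h1 : v * w = 1) (h2 : w * v = 1) :
    ∃ g ∈ E3 A, g.val = Matrix.diagonal ![v, w, 1] := by
  have k1 : (!![1, v, 0; 0, 1, 0; 0, 0, 1] * !![1, 0, 0; -w, 1, 0; 0, 0, 1] *
      !![1, v, 0; 0, 1, 0; 0, 0, 1] : Matrix (Fin 3) (Fin 3) A) = !![0, v, 0; -w, 0, 0; 0, 0, 1] := by
    ext i j
    fin_cases i <;> fin_cases j <;> simp [Matrix.mul_apply, Fin.sum_univ_three, h1, h2]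
  have k2 : (!![1, -1, 0; 0, 1, 0; 0, 0, 1] * !![1, 0, 0; 1, 1, 0; 0, 0, 1] *
      !![1, -1, 0; 0, 1, 0; 0, 0, 1] : Matrix (Fin 3) (Fin 3) A) = !![0, -1, 0; 1, 0, 0; 0, 0, 1] := by
    ext i j
    fin_cases i <;> fin_cases j <;> simp [Matrix.mul_apply, Fin.sum_univ_three]
  refine ⟨(el 0 1 (by decide) v * el 1 0 (by decide) (-w) * el 0 1 (by decide) v) *
    (el 0 1 (by decide) (-1) * el 1 0 (by decide) 1 * el 0 1 (by decide) (-1)), ?_, ?_⟩
  · refine mul_mem (mul_mem (mul_mem ?_ ?_) ?_) (mul_mem (mul_mem ?_ ?_) ?_) <;> exact el_mem _ _ _ _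
  · rw [Units.val_mul, Units.val_mul, Units.val_mul, Units.val_mul, Units.val_mul, el01, el10, el01,
      el10, k1, k2]
    ext i j
    fin_cases i <;> fin_cases j <;> simp [Matrix.mul_apply, Fin.sum_univ_three, Matrix.diagonal]

lemma w12 (v w : A) (h1 : v * w = 1) (h2 : w * v = 1) :
    ∃ g ∈ E3 A, g.val = Matrix.diagonal ![1, v, w] := by
  have k1 : (!![1, 0, 0; 0, 1, v; 0, 0, 1] * !![1, 0, 0; 0, 1, 0; 0, -w, 1] *
      !![1, 0, 0; 0, 1, v; 0, 0, 1] : Matrix (Fin 3) (Fin 3) A) = !![1, 0, 0; 0, 0, v; 0, -w, 0] := by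
    ext i j
    fin_cases i <;> fin_cases j <;> simp [Matrix.mul_apply, Fin.sum_univ_three, h1, h2]
  have k2 : (!![1, 0, 0; 0, 1, -1; 0, 0, 1] * !![1, 0, 0; 0, 1, 0; 0, 1, 1] *
      !![1, 0, 0; 0, 1, -1; 0, 0, 1] : Matrix (Fin 3) (Fin 3) A) = !![1, 0, 0; 0, 0, -1; 0, 1, 0] := by
    ext i j
    fin_cases i <;> fin_cases j <;> simp [Matrix.mul_apply, Fin.sum_univ_three]
  refine ⟨(el 1 2 (by decide) v * el 2 1 (by decide) (-w) * el 1 2 (by decide) v) *
    (el 1 2 (by decide) (-1) * el 2 1 (by decide) 1 * el 1 2 (by decide) (-1)), ?_, ?_⟩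
  · refine mul_mem (mul_mem (mul_mem ?_ ?_) ?_) (mul_mem (mul_mem ?_ ?_) ?_) <;> exact el_mem _ _ _ _
  · rw [Units.val_mul, Units.val_mul, Units.val_mul, Units.val_mul, Units.val_mul, el12, el21, el12,
      el21, k1, k2]
    ext i j
    fin_cases i <;> fin_cases j <;> simp [Matrix.mul_apply, Fin.sum_univ_three, Matrix.diagonal]

end white

/-- the data for `E_3` of a ring with the relations of the Leavitt algebra -/
theorem data_main (A : Type) [Ring A] [Nontrivial A] (x1 x2 y1 y2 : A) (hL : Leav x1 x2 y1 y2) :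
    ∃ (θ η : E3 A →* E3 A) (h : E3 A), Dat (E3 A) θ η h := by
  have a1 := hL.r11
  have a2 := hL.r22
  have a3 := hL.r12
  have a4 := hL.r21
  have b1 : ∀ z, y1 * (x1 * z) = z := fun z => by rw [← mul_assoc, a1, one_mul]
  have b2 : ∀ z, y2 * (x2 * z) = z := fun z => by rw [← mul_assoc, a2, one_mul]
  have b3 : ∀ z, y1 * (x2 * z) = 0 := fun z => by rw [← mul_assoc, a3, zero_mul]
  have b4 : ∀ z, y2 * (x1 * z) = 0 := fun z => by rw [← mul_assoc, a4, zero_mul]
  obtain ⟨u, hu⟩ : ∃ u : A, u = x1 * (y1 * y1) + x2 * (x1 * (y2 * y1)) + x2 * (x2 * y2) := ⟨_, rfl⟩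
  obtain ⟨ui, hui⟩ : ∃ ui : A, ui = x1 * (x1 * y1) + x1 * (x2 * (y1 * y2)) + x2 * (y2 * y2) := ⟨_, rfl⟩
  have c1 : u * ui = 1 := by
    rw [hu, hui]
    simp only [mul_add, add_mul, mul_assoc, a1, a2, a3, a4, b1, b2, b3, b4, mul_zero, zero_mul,
      mul_one, one_mul, add_zero, zero_add]
    calc _ = x1 * y1 + x2 * ((x1 * y1 + x2 * y2) * y2) := by noncomm_ring
      _ = 1 := by rw [hL.rs, one_mul, hL.rs]
  have c2 : ui * u = 1 := by
    rw [hu, hui]
    simp only [mul_add, add_mul, mul_assoc, a1, a2, a3, a4, b1, b2, b3, b4, mul_zero, zero_mul,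
      mul_one, one_mul, add_zero, zero_add]
    calc _ = x1 * ((x1 * y1 + x2 * y2) * y1) + x2 * y2 := by noncomm_ring
      _ = 1 := by rw [hL.rs, one_mul, hL.rs]
  -- the relations
  have d1 : u * x1 * x1 = x1 := by
    rw [hu]
    simp only [mul_add, add_mul, mul_assoc, a1, a2, a3, a4, b1, b2, b3, b4, mul_zero, zero_mul,
      mul_one, one_mul, add_zero, zero_add]
  have d2 : ui * x2 * x2 = x2 := by
    rw [hui]
    simp only [mul_add, add_mul, mul_assoc, a1, a2, a3, a4, b1, b2, b3, b4, mul_zero, zero_mul,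
      mul_one, one_mul, add_zero, zero_add]
  have d3 : y1 * (y1 * ui) = y1 := by
    rw [hui]
    simp only [mul_add, add_mul, mul_assoc, a1, a2, a3, a4, b1, b2, b3, b4, mul_zero, zero_mul,
      mul_one, one_mul, add_zero, zero_add]
  have d4 : y2 * (y2 * u) = y2 := by
    rw [hu]
    simp only [mul_add, add_mul, mul_assoc, a1, a2, a3, a4, b1, b2, b3, b4, mul_zero, zero_mul,
      mul_one, one_mul, add_zero, zero_add]
  have d5 : u * x1 * x2 = x2 * x1 := by
    rw [hu]
    simp only [mul_add, add_mul, mul_assoc, a1, a2, a3, a4, b1, b2, b3, b4, mul_zero, zero_mul,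
      mul_one, one_mul, add_zero, zero_add]
  have d6 : ui * x2 * x1 = x1 * x2 := by
    rw [hui]
    simp only [mul_add, add_mul, mul_assoc, a1, a2, a3, a4, b1, b2, b3, b4, mul_zero, zero_mul,
      mul_one, one_mul, add_zero, zero_add]
  have d7 : y2 * (y1 * ui) = y1 * y2 := by
    rw [hui]
    simp only [mul_add, add_mul, mul_assoc, a1, a2, a3, a4, b1, b2, b3, b4, mul_zero, zero_mul,
      mul_one, one_mul, add_zero, zero_add]
  have d8 : y1 * (y2 * u) = y2 * y1 := by
    rw [hu]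
    simp only [mul_add, add_mul, mul_assoc, a1, a2, a3, a4, b1, b2, b3, b4, mul_zero, zero_mul,
      mul_one, one_mul, add_zero, zero_add]
  have d9 : ui * (u * u) = u := by rw [← mul_assoc, c2, one_mul]
  have f1 : u * u * (ui * ui) = 1 := by
    calc u * u * (ui * ui) = u * (u * ui) * ui := by simp only [mul_assoc]
      _ = 1 := by rw [c1, mul_one, c1]
  have f2 : ui * ui * (u * u) = 1 := by
    calc ui * ui * (u * u) = ui * (ui * u) * u := by simp only [mul_assoc]
      _ = 1 := by rw [c2, mul_one, c2]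
  -- the element
  obtain ⟨g1, hg1, hg1v⟩ := w01 u ui c1 c2
  obtain ⟨g2, hg2, hg2v⟩ := w12 (u * u) (ui * ui) f1 f2
  refine ⟨_, _, _, dat_of ![x1, x1, x2] ![y1, y1, y2] ![x2 * x1, x2 * x1, x1 * x2]
    ![y1 * y2, y1 * y2, y2 * y1] ![x1, x1, x2 * x2] ![y1, y1, y2 * y2] ![x2, x2, x2 * x1]
    ![y2, y2, y1 * y2] ![u, u, ui * ui] ![ui, ui, u * u]
    ?_ ?_ ?_ ?_ ?_ ?_ ?_ ?_ ?_ ?_ ?_ ?_ (g1 * g2) (mul_mem hg1 hg2) ?_⟩
  · intro i
    fin_cases i <;> simp [a1, a2]
  · intro i
    fin_cases i <;> simp [mul_assoc, a1, a2, b1, b2]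
  · intro i
    fin_cases i <;> simp [b3, b4]
  · intro i
    fin_cases i <;> simp [mul_assoc, a3, a4]
  · intro i
    fin_cases i <;> simp [mul_assoc, a1, a2, b2]
  · intro i
    fin_cases i <;> simp [mul_assoc, a1, a2, b2]
  · intro i
    fin_cases i
    · exact c1
    · exact c1
    · exact f2
  · intro i
    fin_cases i
    · exact c2
    · exact c2
    · exact f1
  · intro i
    fin_cases i
    · exact d1
    · exact d1
    · change ui * ui * x2 * (x2 * x2) = x2
      calc ui * ui * x2 * (x2 * x2) = ui * (ui * x2 * x2) * x2 := by simp only [mul_assoc]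
        _ = x2 := by rw [d2, d2]
  · intro i
    fin_cases i
    · exact d3
    · exact d3
    · change y2 * y2 * (y2 * (u * u)) = y2
      calc y2 * y2 * (y2 * (u * u)) = y2 * (y2 * (y2 * u)) * u := by simp only [mul_assoc]
        _ = y2 := by rw [d4, mul_assoc, d4]
  · intro i
    fin_cases i
    · exact d5
    · exact d5
    · change ui * ui * x2 * (x2 * x1) = x1 * x2
      calc ui * ui * x2 * (x2 * x1) = ui * (ui * x2 * x2) * x1 := by simp only [mul_assoc]
        _ = x1 * x2 := by rw [d2, d6]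
  · intro i
    fin_cases i
    · exact d7
    · exact d7
    · change y1 * y2 * (y2 * (u * u)) = y2 * y1
      calc y1 * y2 * (y2 * (u * u)) = y1 * (y2 * (y2 * u)) * u := by simp only [mul_assoc]
        _ = y2 * y1 := by rw [d4, mul_assoc, d8]
  · rw [Units.val_mul, hg1v, hg2v, Matrix.diagonal_mul_diagonal]
    congr 1
    funext i
    fin_cases i
    · exact mul_one u
    · exact d9
    · exact one_mul _

end Pool.Agent.N46.NS
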